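import Pool.Agent.H78.XQ.Targets

/-!
# Module ONE: one run of the two-query circuit
-/

set_option autoImplicit false

namespace Pool.Agent.H59.XQ

open Finset Pool.Agent.H6.NB Pool.Agent.H70.OQ Pool.Agent.H70.EH Pool.Agent.H70.EI
open Pool.Agent.H78.XQ
open scoped Matrix

lemma lab_mulVec (l q : ℕ) (M : Matrix ((Fin q → Bool) × Bool) ((Fin q → Bool) × Bool) ℂ)
    (g : (Fin l → Bool) × (Fin q → Bool) × Bool → ℂ) (u : Fin l → Bool)
    (z : (Fin q → Bool) × Bool) :
    (lab l q M *ᵥ g) (u, z) = (M *ᵥ fun y => g (u, y)) z := by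
  rw [Matrix.mulVec, dotProduct, Fintype.sum_prod_type, Finset.sum_eq_single u]
  · simp only [lab, Matrix.of_apply, Matrix.mulVec, dotProduct, if_true]
  · intro x _ hx
    refine Finset.sum_eq_zero fun y _ => ?_
    simp only [lab, Matrix.of_apply]
    rw [if_neg fun e => hx e.symm, zero_mul]
  · intro h
    exact absurd (Finset.mem_univ _) h

/-- the basis of the two-query circuit -/
abbrev Bq (s : List Bool) : Type := (Fin (qs s) → Bool) × Bool

/-- the unitary operations of the two-query circuit -/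
noncomputable def Uq (s : List Bool) (t : ℕ) : Matrix (Bq s) (Bq s) ℂ :=
  if t = 1 then hadX (qs s) else hadI (qs s)

lemma one_phase (O : List Bool → Bool) (s : List Bool) (u : Fin (2 * s.length) → Bool)
    (y : Bq s) : (Pool.Agent.H78.XQ.one s).phase O (u, y) = (run s (List.ofFn u)).phase O y := by
  show (([pos s (List.ofFn u) (List.ofFn y.1) y.2]).map
    fun w => if O w then (-1 : ℂ) else 1).prod = _
  rw [List.map_singleton, List.prod_singleton]
  rfl

lemma one_state (O : List Bool → Bool) (s : List Bool) (t : ℕ)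
    (u : Fin (2 * s.length) → Bool) (z : Bq s) :
    (Pool.Agent.H78.XQ.one s).state O t (u, z) =
      ((1 / √(2 ^ (2 * s.length)) : ℝ) : ℂ) * (run s (List.ofFn u)).state O t z := by
  induction t generalizing z with
  | zero =>
    let g0 : (Fin (2 * s.length) → Bool) × Bq s → ℂ := fun z =>
      if z.2 = (fun _ => false, false) then ((1 / √(2 ^ (2 * s.length)) : ℝ) : ℂ) else 0
    let r0 : Bq s → ℂ := Pi.single (fun _ => false, false) 1
    have h1 : (fun y => g0 (u, y)) = ((1 / √(2 ^ (2 * s.length)) : ℝ) : ℂ) • r0 := by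
      funext y
      simp only [g0, r0, Pi.smul_apply, Pi.single_apply, smul_eq_mul]
      split_ifs <;> simp
    calc (Pool.Agent.H78.XQ.one s).state O 0 (u, z)
        = (lab (2 * s.length) (qs s) (Uq s 0) *ᵥ g0) (u, z) := rfl
      _ = (Uq s 0 *ᵥ fun y => g0 (u, y)) z := lab_mulVec _ _ _ _ _ _
      _ = (Uq s 0 *ᵥ (((1 / √(2 ^ (2 * s.length)) : ℝ) : ℂ) • r0)) z := by rw [h1]
      _ = ((1 / √(2 ^ (2 * s.length)) : ℝ) : ℂ) * (Uq s 0 *ᵥ r0) z := by
          rw [Matrix.mulVec_smul]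
          rfl
      _ = ((1 / √(2 ^ (2 * s.length)) : ℝ) : ℂ) * (run s (List.ofFn u)).state O 0 z := rfl
  | succ t ih =>
    let g1 : (Fin (2 * s.length) → Bool) × Bq s → ℂ := fun i =>
      (Pool.Agent.H78.XQ.one s).phase O i * (Pool.Agent.H78.XQ.one s).state O t i
    let r1 : Bq s → ℂ := fun i =>
      (run s (List.ofFn u)).phase O i * (run s (List.ofFn u)).state O t i
    have h1 : (fun y => g1 (u, y)) = ((1 / √(2 ^ (2 * s.length)) : ℝ) : ℂ) • r1 := by
      funext y
      simp only [g1, r1, Pi.smul_apply, smul_eq_mul]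
      rw [ih y, one_phase]
      ring
    calc (Pool.Agent.H78.XQ.one s).state O (t + 1) (u, z)
        = (lab (2 * s.length) (qs s) (Uq s (t + 1)) *ᵥ g1) (u, z) := rfl
      _ = (Uq s (t + 1) *ᵥ fun y => g1 (u, y)) z := lab_mulVec _ _ _ _ _ _
      _ = (Uq s (t + 1) *ᵥ (((1 / √(2 ^ (2 * s.length)) : ℝ) : ℂ) • r1)) z := by rw [h1]
      _ = ((1 / √(2 ^ (2 * s.length)) : ℝ) : ℂ) * (Uq s (t + 1) *ᵥ r1) z := by
          rw [Matrix.mulVec_smul]
          rfl
      _ = ((1 / √(2 ^ (2 * s.length)) : ℝ) : ℂ) * (run s (List.ofFn u)).state O (t + 1) z := rfl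

theorem one (hFOX : Pool.Agent.H70.EH.T_FOX) (hNRM : T_NRM) :
    Pool.Agent.H78.XQ.T_ONE := by
  intro O s
  have h0 : (0 : ℝ) < 2 ^ (2 * s.length) := by positivity
  have hn := hNRM (Pool.Agent.H78.XQ.one s) O 2
  have hsplit := Finset.sum_filter_add_sum_filter_not
    (Finset.univ : Finset ((Fin (2 * s.length) → Bool) × (Fin (qs s) → Bool) × Bool))
    (fun z => z.2.1 ≠ fun _ => false)
    (fun z => ‖(Pool.Agent.H78.XQ.one s).state O 2 z‖ ^ 2)
  have hprob : (Pool.Agent.H78.XQ.one s).prob O =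
      ∑ z ∈ (Finset.univ : Finset ((Fin (2 * s.length) → Bool) × (Fin (qs s) → Bool) × Bool)).filter
        (fun z => z.2.1 ≠ fun _ => false), ‖(Pool.Agent.H78.XQ.one s).state O 2 z‖ ^ 2 := rfl
  have hrest : ∑ z ∈ (Finset.univ :
      Finset ((Fin (2 * s.length) → Bool) × (Fin (qs s) → Bool) × Bool)).filter
        (fun z => ¬ z.2.1 ≠ fun _ => false), ‖(Pool.Agent.H78.XQ.one s).state O 2 z‖ ^ 2 =
      avg (qs s) (cps O s) := by
    rw [Finset.sum_filter, Fintype.sum_prod_type]
    have h1 : ∀ u : Fin (2 * s.length) → Bool, ∑ z : (Fin (qs s) → Bool) × Bool,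
        (if ¬ (u, z).2.1 ≠ (fun _ => false) then
          ‖(Pool.Agent.H78.XQ.one s).state O 2 (u, z)‖ ^ 2 else 0) =
        1 / 2 ^ (2 * s.length) * phi (qs s) (cpx O s (List.ofFn u)) ^ 2 := by
      intro u
      rw [← hFOX O s (List.ofFn u)]
      have h2 : (run s (List.ofFn u)).prob O =
          ∑ z ∈ (Finset.univ : Finset ((Fin (qs s) → Bool) × Bool)).filter
            (fun z => z.1 = fun _ => false), ‖(run s (List.ofFn u)).state O 2 z‖ ^ 2 := rfl
      rw [h2, Finset.sum_filter, Finset.mul_sum]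
      refine Finset.sum_congr rfl fun z _ => ?_
      by_cases hz : z.1 = fun _ => false
      · rw [if_pos (not_not.2 hz), if_pos hz, one_state, norm_mul, mul_pow, Complex.norm_real,
          Real.norm_eq_abs, sq_abs, div_pow, one_pow, Real.sq_sqrt h0.le]
      · rw [if_neg (not_not.2 hz), if_neg hz, mul_zero]
    rw [Finset.sum_congr rfl fun u _ => h1 u, ← Finset.mul_sum]
    unfold avg cps
    rw [Fintype.card_fun, Fintype.card_bool, Fintype.card_fin]
    push_cast
    rw [div_mul_eq_mul_div, one_mul]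
  rw [hprob]
  rw [hrest] at hsplit
  have hn' : ∑ z : (Fin (2 * s.length) → Bool) × (Fin (qs s) → Bool) × Bool,
      ‖(Pool.Agent.H78.XQ.one s).state O 2 z‖ ^ 2 = 1 := hn
  linarith

end Pool.Agent.H59.XQ
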